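import Pool.Agent.Helper36.CV.StmtsO

/-!
# CV: module O9, points of `Cs l` are approximate eigenvalues
-/

set_option autoImplicit false

namespace Pool.Agent.Helper36.CV

noncomputable section

/-- the solution with given initial values -/
def o9_sol (l E : ℝ) (c0 c1 : ℂ) : ℕ → ℂ
  | 0 => c0
  | 1 => c1
  | (k + 2) => ((E - l * vv ((k : ℤ) + 1) : ℝ) : ℂ) * o9_sol l E c0 c1 (k + 1) - o9_sol l E c0 c1 k

/-- complexification of a real 2x2 matrix acting on a vector -/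
def o9_act (A : Matrix (Fin 2) (Fin 2) ℝ) (c1 c0 : ℂ) : ℂ × ℂ :=
  ((A 0 0 : ℂ) * c1 + (A 0 1 : ℂ) * c0, (A 1 0 : ℂ) * c1 + (A 1 1 : ℂ) * c0)

theorem o9_Pr (l E : ℝ) (c0 c1 : ℂ) (n : ℕ) :
    o9_act (Pr (fun k => l * vv k) E 0 n) c1 c0 =
      (o9_sol l E c0 c1 (n + 1), o9_sol l E c0 c1 n) := by
  induction n with
  | zero =>
    simp [Pr, o9_act, o9_sol]
  | succ n ih =>
    have h1 := congrArg Prod.fst ih
    have h2 := congrArg Prod.snd ih
    simp only [o9_act] at h1 h2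
    have h3 : (0 + (n : ℤ) + 1) = (n : ℤ) + 1 := by ring
    simp only [Pr, o9_act, Tr, Matrix.mul_apply, Fin.sum_univ_two, h3]
    rw [o9_sol]
    rw [← h1, ← h2]
    refine Prod.ext ?_ ?_
    · simp
      ring
    · simp

theorem o9_det (w : ℤ → ℝ) (E : ℝ) (n : ℕ) : (Pr w E 0 n).det = 1 := by
  induction n with
  | zero => simp [Pr]
  | succ n ih =>
    rw [Pr, Matrix.det_mul, ih, Tr, Matrix.det_fin_two_of]
    ring

/-- a matrix of determinant one and trace of modulus at most two has an eigenvector with unimodular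
eigenvalue -/
theorem o9_eig (A : Matrix (Fin 2) (Fin 2) ℝ) (hdet : A.det = 1) (htr : |A.trace| ≤ 2) :
    ∃ (c1 c0 ρ : ℂ), ‖ρ‖ = 1 ∧ (c1 ≠ 0 ∨ c0 ≠ 0) ∧ o9_act A c1 c0 = (ρ * c1, ρ * c0) := by
  rw [Matrix.det_fin_two] at hdet
  rw [Matrix.trace_fin_two] at htr
  set a := A 0 0 with ha
  set b := A 0 1 with hb
  set c := A 1 0 with hc
  set d := A 1 1 with hd
  have h4 : 0 ≤ 4 - (a + d) ^ 2 := by
    have := abs_le.1 htr
    nlinarith
  set s := Real.sqrt (4 - (a + d) ^ 2) with hs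
  have hs2 : s ^ 2 = 4 - (a + d) ^ 2 := Real.sq_sqrt h4
  set ρ : ℂ := (((a + d) / 2 : ℝ) : ℂ) + ((s / 2 : ℝ) : ℂ) * Complex.I with hρ
  have hρn : ‖ρ‖ = 1 := by
    rw [hρ, Complex.norm_add_mul_I]
    rw [show ((a + d) / 2) ^ 2 + (s / 2) ^ 2 = 1 by nlinarith, Real.sqrt_one]
  have hchar : ρ ^ 2 - ((a + d : ℝ) : ℂ) * ρ + 1 = 0 := by
    apply Complex.ext
    · simp [hρ, pow_two]
      nlinarith
    · simp [hρ, pow_two]
      ring
  clear_value ρ
  by_cases hb0 : b = 0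
  · by_cases hc0 : c = 0
    · -- diagonal
      have had : a * d = 1 := by rw [hb0, hc0] at hdet; linarith
      refine ⟨1, 0, (a : ℂ), ?_, Or.inl one_ne_zero, ?_⟩
      · have h1 : (a - d) ^ 2 ≤ 0 := by nlinarith
        have h2 : a = d := by nlinarith [sq_nonneg (a - d)]
        have h3 : |a| ^ 2 = 1 := by rw [sq_abs]; rw [h2] at had ⊢; nlinarith
        rw [Complex.norm_real, Real.norm_eq_abs]
        have h4 := abs_nonneg a
        nlinarith
      · simp only [o9_act]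
        rw [← ha, ← hb, ← hc, ← hd, hb0, hc0]
        simp
    · refine ⟨ρ - (d : ℂ), (c : ℂ), ρ, hρn, Or.inr (by exact_mod_cast hc0), ?_⟩
      simp only [o9_act]
      rw [← ha, ← hb, ← hc, ← hd]
      have hdetC : (a : ℂ) * (d : ℂ) - (b : ℂ) * (c : ℂ) = 1 := by exact_mod_cast hdet
      push_cast at hchar
      refine Prod.ext ?_ ?_
      · simp only
        linear_combination -hchar - hdetC
      · simp only
        ring
  · refine ⟨(b : ℂ), ρ - (a : ℂ), ρ, hρn, Or.inl (by exact_mod_cast hb0), ?_⟩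
    simp only [o9_act]
    rw [← ha, ← hb, ← hc, ← hd]
    have hdetC : (a : ℂ) * (d : ℂ) - (b : ℂ) * (c : ℂ) = 1 := by exact_mod_cast hdet
    push_cast at hchar
    refine Prod.ext ?_ ?_
    · simp only
      ring
    · simp only
      linear_combination -hchar - hdetC

/-- the tent -/
def o9_chi (F : ℕ) (k : ℤ) : ℝ := max 0 (min ((k : ℝ) / F) (2 - (k : ℝ) / F))

theorem o9_tent (x y t : ℝ) (h : |x - y| ≤ t) :
    |max 0 (min x (2 - x)) - max 0 (min y (2 - y))| ≤ t := by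
  rw [abs_le] at h ⊢
  obtain ⟨h1, h2⟩ := h
  simp only [max_def, min_def]
  split_ifs <;> constructor <;> linarith

theorem o9_chi_lip (F : ℕ) (hF : 0 < F) (k : ℤ) : |o9_chi F (k + 1) - o9_chi F k| ≤ 1 / F := by
  have hF' : (0 : ℝ) < F := by exact_mod_cast hF
  unfold o9_chi
  refine o9_tent _ _ _ ?_
  have h0 : (0 : ℝ) < 1 / F := by positivity
  push_cast
  rw [add_div, add_sub_cancel_left, abs_of_pos h0]

theorem o9_chi_zero (F : ℕ) (hF : 0 < F) (k : ℤ) (hk : k ≤ 0 ∨ 2 * F ≤ k) : o9_chi F k = 0 := by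
  have hF' : (0 : ℝ) < F := by exact_mod_cast hF
  unfold o9_chi
  refine max_eq_left ?_
  rcases hk with hk | hk
  · refine (min_le_left _ _).trans ?_
    refine div_nonpos_of_nonpos_of_nonneg ?_ hF'.le
    exact_mod_cast hk
  · refine (min_le_right _ _).trans ?_
    rw [sub_nonpos, le_div_iff₀ hF']
    exact_mod_cast hk

theorem o9_chi_sq (F : ℕ) (hF : 0 < F) (j : ℕ) (hj : j < F) :
    1 / 2 ≤ o9_chi F j ^ 2 + o9_chi F (j + F : ℕ) ^ 2 := by
  have hF' : (0 : ℝ) < F := by exact_mod_cast hF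
  have hj' : (j : ℝ) < F := by exact_mod_cast hj
  have hj0 : (0 : ℝ) ≤ j := Nat.cast_nonneg j
  have e1 : o9_chi F j = (j : ℝ) / F := by
    unfold o9_chi
    have h1 : ((j : ℤ) : ℝ) / F ≤ 1 := by
      rw [div_le_one hF']
      exact_mod_cast hj.le
    have h0 : 0 ≤ ((j : ℤ) : ℝ) / F := by positivity
    rw [min_eq_left (by linarith), max_eq_right h0]
    push_cast
    rfl
  have e2 : o9_chi F (j + F : ℕ) = 1 - (j : ℝ) / F := by
    unfold o9_chi
    have h1 : (((j + F : ℕ) : ℤ) : ℝ) / F = (j : ℝ) / F + 1 := by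
      push_cast
      rw [add_div, div_self hF'.ne']
    have h2 : (j : ℝ) / F ≤ 1 := by
      rw [div_le_one hF']
      exact hj'.le
    have h0 : 0 ≤ (j : ℝ) / F := by positivity
    rw [h1, min_eq_right (by linarith), max_eq_right (by linarith)]
    ring
  rw [e1, e2]
  nlinarith [sq_nonneg (2 * ((j : ℝ) / F) - 1)]

/-- a sum over the integers of a function supported on the naturals up to `2F` -/
theorem o9_tsum (f : ℤ → ℝ) (m : ℕ) (h : ∀ k : ℤ, f k ≠ 0 → 0 ≤ k ∧ k < m) :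
    Summable f ∧ ∑' k, f k = ∑ i ∈ Finset.range m, f i := by
  have hs : Function.support f ⊆ ((Finset.range m).map Nat.castEmbedding : Finset ℤ) := by
    intro k hk
    obtain ⟨h1, h2⟩ := h k hk
    rw [Finset.mem_coe, Finset.mem_map]
    refine ⟨k.toNat, Finset.mem_range.2 (by omega), ?_⟩
    simp [Int.toNat_of_nonneg h1]
  refine ⟨summable_of_hasFiniteSupport ((Finset.finite_toSet _).subset hs), ?_⟩
  rw [tsum_eq_sum' hs, Finset.sum_map]
  rfl

theorem st_O9 (h4 : ST_O4) (h5 : ST_O5) (h6 : ST_O6) : ST_O9 := by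
  intro l E hE δ hδ
  -- a large good level
  obtain ⟨n, hn3, hnF, hnX⟩ : ∃ n : ℕ, 3 ≤ n ∧ 24 / δ < ((Nat.fib n : ℕ) : ℝ) ∧ |X l n E| ≤ 1 := by
    obtain ⟨m, hm⟩ := exists_nat_gt (24 / δ)
    have h1 : ∀ n, 5 + m ≤ n → 24 / δ < ((Nat.fib n : ℕ) : ℝ) := by
      intro n hn
      have h2 : n ≤ Nat.fib n := Nat.le_fib_self (by omega)
      refine hm.trans_le ?_
      exact_mod_cast (by omega : m ≤ Nat.fib n)
    rcases hE (5 + m) with h | h
    · exact ⟨5 + m, by omega, h1 _ le_rfl, h⟩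
    · exact ⟨5 + m + 1, by omega, h1 _ (by omega), h⟩
  obtain ⟨F, hFdef⟩ : ∃ F : ℕ, F = Nat.fib n := ⟨_, rfl⟩
  rw [← hFdef] at hnF
  have hF2 : 2 ≤ F := by
    have h7 : Nat.fib 3 ≤ Nat.fib n := Nat.fib_mono hn3
    have h8 : Nat.fib 3 = 2 := rfl
    omega
  have hF' : (0 : ℝ) < F := by exact_mod_cast (by omega : 0 < F)
  obtain ⟨c1, c0, ρ, hρ, hc, hact⟩ := o9_eig (Pr (fun k => l * vv k) E 0 F) (o9_det _ _ _) (by
    rw [hFdef, ← h5 l E n (by omega), h4 l E n (by omega), abs_mul, abs_two]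
    linarith)
  rw [o9_Pr] at hact
  have hψ1 := congrArg Prod.fst hact
  have hψ0 := congrArg Prod.snd hact
  simp only at hψ1 hψ0
  set ψ : ℕ → ℂ := o9_sol l E c0 c1 with hψ
  have hrec : ∀ k : ℕ, ψ (k + 2) = ((E - l * vv ((k : ℤ) + 1) : ℝ) : ℂ) * ψ (k + 1) - ψ k :=
    fun k => by rw [hψ]; rfl
  have hψc0 : ψ 0 = c0 := rfl
  have hψc1 : ψ 1 = c1 := rfl
  clear_value ψ
  rw [← hψc1] at hψ1
  rw [← hψc0] at hψ0
  -- quasi-periodicity
  have hfib : F + 1 ≤ Nat.fib (n + 1) := by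
    obtain ⟨n', rfl⟩ : ∃ n', n = n' + 1 := ⟨n - 1, by omega⟩
    rw [Nat.fib_add_two]
    have : 0 < Nat.fib n' := Nat.fib_pos.2 (by omega)
    omega
  have hper : ∀ k : ℕ, k ≤ F → ψ (k + F) = ρ * ψ k ∧ (k + 1 ≤ F → ψ (k + 1 + F) = ρ * ψ (k + 1)) := by
    intro k
    induction k with
    | zero =>
      intro _
      refine ⟨?_, fun _ => ?_⟩
      · rw [zero_add]; exact hψ0
      · rw [zero_add, add_comm]; exact hψ1
    | succ k ih =>
      intro hk
      obtain ⟨i1, i2⟩ := ih (by omega)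
      have i3 := i2 (by omega)
      refine ⟨i3, fun hk2 => ?_⟩
      have e1 : k + 1 + 1 + F = (k + F) + 2 := by ring
      have e2 : k + F + 1 = k + 1 + F := by ring
      have hv : vv (((k + F : ℕ) : ℤ) + 1) = vv ((k : ℤ) + 1) := by
        have h7 : (F : ℤ) + 1 ≤ (Nat.fib (n + 1) : ℕ) := by exact_mod_cast hfib
        have := h6.1 n ((k : ℤ) + 1) (by omega) (by omega) (by omega)
        rw [← this]
        congr 1
        rw [hFdef]
        push_cast
        ring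
      rw [e1, hrec, hv, e2, i3, i1, hrec]
      ring
  have hperN : ∀ k : ℕ, k ≤ F → ‖ψ (k + F)‖ = ‖ψ k‖ := by
    intro k hk
    rw [(hper k hk).1, norm_mul, hρ, one_mul]
  -- masses
  set P : ℝ := ∑ i ∈ Finset.range F, ‖ψ i‖ ^ 2 with hP
  have hP0 : 0 ≤ P := Finset.sum_nonneg fun i _ => by positivity
  have hPpos : 0 < P := by
    rcases hP0.lt_or_eq with h | h
    · exact h
    · exfalso
      have h1 := (Finset.sum_eq_zero_iff_of_nonneg (fun i _ => by positivity)).1 h.symm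
      have h2 := h1 0 (Finset.mem_range.2 (by omega))
      have h3 := h1 1 (Finset.mem_range.2 (by omega))
      have h2' : ψ 0 = 0 := by simpa using h2
      have h3' : ψ 1 = 0 := by simpa using h3
      rcases hc with hc | hc
      · exact hc (hψc1 ▸ h3')
      · exact hc (hψc0 ▸ h2')
  have hψ0P : ‖ψ 0‖ ^ 2 ≤ P :=
    Finset.single_le_sum (f := fun i => ‖ψ i‖ ^ 2) (fun i _ => by positivity)
      (Finset.mem_range.2 (by omega : 0 < F))
  clear_value P
  have hF0 : 0 < F := by omega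
  obtain ⟨u, hu⟩ : ∃ u : ℤ → ℂ, u = fun k : ℤ =>
    (o9_chi F k : ℂ) * ψ k.toNat := ⟨_, rfl⟩
  have husupp : ∀ k : ℤ, u k ≠ 0 → 0 ≤ k ∧ k < (2 * F : ℕ) := by
    intro k hk
    by_contra hcon
    apply hk
    rw [hu]
    simp only
    rw [o9_chi_zero F hF0 k (by push_cast at hcon; omega)]
    simp
  have hunorm : ∀ k, ‖u k‖ ^ 2 = o9_chi F k ^ 2 * ‖ψ k.toNat‖ ^ 2 := by
    intro k
    rw [hu]
    simp only
    rw [norm_mul, mul_pow, Complex.norm_real, Real.norm_eq_abs, sq_abs]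
  have hmass : P / 2 ≤ ∑' k, ‖u k‖ ^ 2 := by
    rw [(o9_tsum (fun k => ‖u k‖ ^ 2) (2 * F) (fun k hk => husupp k (by
      intro h
      apply hk
      simp [h]))).2]
    rw [two_mul, Finset.sum_range_add, ← Finset.sum_add_distrib, hP, Finset.sum_div]
    refine Finset.sum_le_sum fun i hi => ?_
    have hi' := Finset.mem_range.1 hi
    simp only [hunorm]
    have h1 := o9_chi_sq F hF0 i hi'
    have e1 : ((F + i : ℕ) : ℤ) = ((i + F : ℕ) : ℤ) := by push_cast; ring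
    have e2 : ‖ψ (((F + i : ℕ) : ℤ).toNat)‖ = ‖ψ i‖ := by
      rw [e1, Int.toNat_natCast]
      exact hperN i hi'.le
    have e3 : ψ (((i : ℕ) : ℤ).toNat) = ψ i := by rw [Int.toNat_natCast]
    rw [e2, e3, e1, ← add_mul]
    have h2 : 0 ≤ ‖ψ i‖ ^ 2 := by positivity
    nlinarith
  -- the defect
  obtain ⟨g, hg⟩ : ∃ g : ℤ → ℝ, g = fun k : ℤ => if 0 ≤ k ∧ k < (2 * F + 1 : ℕ) then
    2 / (F : ℝ) ^ 2 * ‖ψ k.toNat‖ ^ 2 else 0 := ⟨_, rfl⟩
  have hg0 : ∀ k, 0 ≤ g k := by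
    intro k
    rw [hg]
    simp only
    split_ifs
    · positivity
    · exact le_rfl
  have hgs := o9_tsum g (2 * F + 1) (by
    intro k hk
    by_contra hcon
    apply hk
    rw [hg]
    exact if_neg hcon)
  have hgsum : ∑' k, g k ≤ 6 * P / (F : ℝ) ^ 2 := by
    rw [hgs.2, Finset.sum_range_succ, two_mul, Finset.sum_range_add]
    have h1 : ∀ i : ℕ, i < 2 * F + 1 → g i = 2 / (F : ℝ) ^ 2 * ‖ψ i‖ ^ 2 := by
      intro i hi
      rw [hg]
      simp only
      rw [if_pos ⟨by omega, by exact_mod_cast hi⟩, Int.toNat_natCast]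
    have h2 : ∑ i ∈ Finset.range F, g (i : ℕ) = 2 / (F : ℝ) ^ 2 * P := by
      rw [hP, Finset.mul_sum]
      refine Finset.sum_congr rfl fun i hi => ?_
      have := Finset.mem_range.1 hi
      exact h1 i (by omega)
    have h3 : ∑ i ∈ Finset.range F, g ((F + i : ℕ) : ℤ) = 2 / (F : ℝ) ^ 2 * P := by
      rw [hP, Finset.mul_sum]
      refine Finset.sum_congr rfl fun i hi => ?_
      have := Finset.mem_range.1 hi
      rw [h1 (F + i) (by omega), add_comm F i, hperN i (by omega)]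
    have h4 : g ((F + F : ℕ) : ℤ) ≤ 2 / (F : ℝ) ^ 2 * P := by
      rw [h1 (F + F) (by omega), hperN F le_rfl]
      have h5 : ‖ψ F‖ = ‖ψ 0‖ := by
        have := hperN 0 (by omega)
        rwa [zero_add] at this
      rw [h5]
      exact mul_le_mul_of_nonneg_left hψ0P (by positivity)
    rw [h2, h3]
    have h6 : 6 * P / (F : ℝ) ^ 2 = 2 / (F : ℝ) ^ 2 * P + 2 / (F : ℝ) ^ 2 * P +
        2 / (F : ℝ) ^ 2 * P := by ring
    rw [h6]
    linarith
  have hchiF : ∀ k : ℤ, (o9_chi F (k + 1) - o9_chi F k) ^ 2 ≤ 1 / (F : ℝ) ^ 2 := by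
    intro k
    have h1 := o9_chi_lip F hF0 k
    rw [← sq_abs]
    calc |o9_chi F (k + 1) - o9_chi F k| ^ 2 ≤ (1 / (F : ℝ)) ^ 2 :=
          pow_le_pow_left₀ (abs_nonneg _) h1 2
      _ = 1 / (F : ℝ) ^ 2 := by rw [one_div, one_div, inv_pow]
  have hbound : ∀ k : ℤ, ‖hop l u k - (E : ℂ) * u k‖ ^ 2 ≤ g (k + 1) + g (k - 1) := by
    intro k
    have hform : hop l u k - (E : ℂ) * u k =
        ((o9_chi F (k + 1) - o9_chi F k : ℝ) : ℂ) * ψ (k + 1).toNat +
        ((o9_chi F (k - 1) - o9_chi F k : ℝ) : ℂ) * ψ (k - 1).toNat := by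
      rw [hu]
      simp only [hop]
      rcases le_or_gt k 0 with hk | hk
      · rw [o9_chi_zero F hF0 k (Or.inl hk), o9_chi_zero F hF0 (k - 1) (Or.inl (by omega))]
        push_cast
        ring
      · obtain ⟨i, rfl⟩ : ∃ i : ℕ, k = (i : ℤ) + 1 := ⟨(k - 1).toNat, by omega⟩
        have t1 : ((i : ℤ) + 1 + 1).toNat = i + 2 := by omega
        have t2 : ((i : ℤ) + 1 - 1).toNat = i := by omega
        have t3 : ((i : ℤ) + 1).toNat = i + 1 := by omega
        rw [t1, t2, t3]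
        have h9 := hrec i
        push_cast at h9 ⊢
        linear_combination (o9_chi F ((i : ℤ) + 1) : ℂ) * h9
    rw [hform]
    have h10 : ∀ a b : ℂ, ‖a + b‖ ^ 2 ≤ 2 * ‖a‖ ^ 2 + 2 * ‖b‖ ^ 2 := by
      intro a b
      have h11 := norm_add_le a b
      have h12 := norm_nonneg (a + b)
      nlinarith [sq_nonneg (‖a‖ - ‖b‖), norm_nonneg a, norm_nonneg b]
    refine (h10 _ _).trans (add_le_add ?_ ?_)
    · rw [norm_mul, mul_pow, Complex.norm_real, Real.norm_eq_abs, sq_abs, hg]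
      simp only
      split_ifs with h11
      · have h12 := hchiF k
        have h13 : 0 ≤ ‖ψ (k + 1).toNat‖ ^ 2 := by positivity
        calc 2 * ((o9_chi F (k + 1) - o9_chi F k) ^ 2 * ‖ψ (k + 1).toNat‖ ^ 2)
            ≤ 2 * (1 / (F : ℝ) ^ 2 * ‖ψ (k + 1).toNat‖ ^ 2) := by
              gcongr
          _ = 2 / (F : ℝ) ^ 2 * ‖ψ (k + 1).toNat‖ ^ 2 := by ring
      · rw [o9_chi_zero F hF0 (k + 1) (by push_cast at h11; omega),
          o9_chi_zero F hF0 k (by push_cast at h11; omega)]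
        simp
    · rw [norm_mul, mul_pow, Complex.norm_real, Real.norm_eq_abs, sq_abs, hg]
      simp only
      split_ifs with h11
      · have h12 := hchiF (k - 1)
        rw [sub_add_cancel, ← neg_sq, neg_sub] at h12
        have h13 : 0 ≤ ‖ψ (k - 1).toNat‖ ^ 2 := by positivity
        calc 2 * ((o9_chi F (k - 1) - o9_chi F k) ^ 2 * ‖ψ (k - 1).toNat‖ ^ 2)
            ≤ 2 * (1 / (F : ℝ) ^ 2 * ‖ψ (k - 1).toNat‖ ^ 2) := by
              gcongr
          _ = 2 / (F : ℝ) ^ 2 * ‖ψ (k - 1).toNat‖ ^ 2 := by ring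
      · rw [o9_chi_zero F hF0 (k - 1) (by push_cast at h11; omega),
          o9_chi_zero F hF0 k (by push_cast at h11; omega)]
        simp
  refine ⟨u, ?_, ?_, ?_⟩
  · refine (Finset.finite_toSet ((Finset.range (2 * F)).map Nat.castEmbedding : Finset ℤ)).subset ?_
    intro k hk
    obtain ⟨h1, h2⟩ := husupp k hk
    rw [Finset.mem_coe, Finset.mem_map]
    refine ⟨k.toNat, Finset.mem_range.2 (by omega), ?_⟩
    simp [Int.toNat_of_nonneg h1]
  · intro h0
    rw [h0] at hmass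
    simp at hmass
    linarith
  · have s1 : Summable fun k => g (k + 1) := (Equiv.addRight (1 : ℤ)).summable_iff.2 hgs.1
    have s2 : Summable fun k => g (k - 1) := (Equiv.subRight (1 : ℤ)).summable_iff.2 hgs.1
    have s3 := s1.add s2
    have h1 : ∑' k, ‖hop l u k - (E : ℂ) * u k‖ ^ 2 ≤ ∑' k, (g (k + 1) + g (k - 1)) :=
      Summable.tsum_le_tsum hbound
        (Summable.of_nonneg_of_le (fun k => by positivity) hbound s3) s3
    have h2 : ∑' k, (g (k + 1) + g (k - 1)) = 2 * ∑' k, g k := by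
      rw [Summable.tsum_add s1 s2]
      have e1 : ∑' k, g (k + 1) = ∑' k, g k := (Equiv.addRight (1 : ℤ)).tsum_eq g
      have e2 : ∑' k, g (k - 1) = ∑' k, g k := (Equiv.subRight (1 : ℤ)).tsum_eq g
      rw [e1, e2]
      ring
    have h3 : 24 / (F : ℝ) ^ 2 ≤ δ := by
      have h4 : (1 : ℝ) ≤ F := by exact_mod_cast (by omega : 1 ≤ F)
      rw [div_lt_iff₀ hδ] at hnF
      rw [div_le_iff₀ (by positivity)]
      nlinarith
    calc ∑' k, ‖hop l u k - (E : ℂ) * u k‖ ^ 2 ≤ 2 * (6 * P / (F : ℝ) ^ 2) := by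
          rw [h2] at h1
          linarith
      _ = (24 / (F : ℝ) ^ 2) * (P / 2) := by ring
      _ ≤ δ * (P / 2) := mul_le_mul_of_nonneg_right h3 (by linarith)
      _ ≤ δ * ∑' k, ‖u k‖ ^ 2 := mul_le_mul_of_nonneg_left hmass hδ.le

end

end Pool.Agent.Helper36.CV
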