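import Pool.Agent.Helper36.CV.StmtsO

/-!
# CV: module O9b, approximate eigenvalues lie in `Cs l`
-/

set_option autoImplicit false

namespace Pool.Agent.Helper36.CV

/-- the transfer matrix over `1, ..., n` depends on the potential at `1, ..., n` only -/
theorem o9b_Pr (w w' : ℤ → ℝ) (E : ℝ) (n : ℕ) (h : ∀ k : ℤ, 1 ≤ k → k ≤ n → w k = w' k) :
    Pr w E 0 n = Pr w' E 0 n := by
  induction n with
  | zero => rfl
  | succ n ih =>
    have h1 : w (0 + (n : ℤ) + 1) = w' (0 + (n : ℤ) + 1) := h _ (by omega) (by push_cast; omega)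
    rw [Pr, Pr, h1, ih fun k hk hk' => h k hk (by push_cast; omega)]

theorem o9b_shift (f : ℤ → ℝ) (j : ℤ) : ∑' k, f (k - j) = ∑' k, f k :=
  (Equiv.subRight j).tsum_eq f

theorem st_O9b (h4 : ST_O4) (h5 : ST_O5) (h6 : ST_O6) (h7 : ST_O7) (h8 : ST_O8) : ST_O9b := by
  intro l E hAE
  by_contra hE
  obtain ⟨d, hd, n0, hn0⟩ := h8 l E hE
  obtain ⟨u, hfin, hu0, hu⟩ := hAE (d ^ 2 / 2) (by positivity)
  -- the support
  obtain ⟨N, hN⟩ : ∃ N : ℕ, ∀ k : ℤ, u k ≠ 0 → |k| ≤ N := by
    obtain ⟨B, hB⟩ := (hfin.image (fun k : ℤ => k.natAbs)).bddAbove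
    refine ⟨B, fun k hk => ?_⟩
    have := hB ⟨k, hk, rfl⟩
    rw [Int.abs_eq_natAbs]
    exact_mod_cast this
  obtain ⟨j, hj, hjv⟩ := h6.2 (N + 2)
  -- a large period
  obtain ⟨n, hn1, hn2, hn3⟩ : ∃ n : ℕ, n0 ≤ n ∧ 2 ≤ n ∧ (j + N + 2 : ℤ) ≤ Nat.fib n := by
    refine ⟨n0 + 5 + (j + N + 2).toNat, by omega, by omega, ?_⟩
    have h1 : n0 + 5 + (j + N + 2).toNat ≤ Nat.fib (n0 + 5 + (j + N + 2).toNat) :=
      Nat.le_fib_self (by omega)
    omega
  set p : ℕ := Nat.fib n with hp
  have hp1 : 1 ≤ p := by omega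
  set w : ℤ → ℝ := fun k => l * vv ((k - 1) % (p : ℤ) + 1) with hw
  have hwper : ∀ k, w (k + p) = w k := by
    intro k
    simp only [hw]
    have h1 : (k + (p : ℤ) - 1) % (p : ℤ) = (k - 1) % (p : ℤ) := by
      have : k + (p : ℤ) - 1 = (k - 1) + p := by ring
      rw [this, Int.add_emod_right]
    rw [h1]
  have hweq : ∀ k : ℤ, 1 ≤ k → k ≤ p → w k = l * vv k := by
    intro k hk hk'
    simp only [hw]
    rw [Int.emod_eq_of_lt (by omega) (by omega)]
    congr 2
    ring
  have htr : ∀ E' : ℝ, |E' - E| < d → 2 < |(Pr w E' 0 p).trace| := by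
    intro E' hE'
    have h1 : Pr w E' 0 p = M l E' n := by
      rw [h5 l E' n hn2]
      exact o9b_Pr w _ E' p hweq
    rw [h1, h4 l E' n (by omega), abs_mul, abs_two]
    have := hn0 n hn1 E' hE'
    linarith
  have hmain := h7 p w E d hp1 hd hwper htr (fun k => u (k - j)) (by
    have h1 : (Function.support fun k => u (k - j)) = (fun k => k + j) '' (Function.support u) := by
      ext k
      simp only [Function.mem_support, Set.mem_image]
      constructor
      · intro h
        exact ⟨k - j, h, by ring⟩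
      · rintro ⟨k', h, rfl⟩
        have : k' + j - j = k' := by ring
        rwa [this]
    rw [h1]
    exact hfin.image _)
  have e1 : ∑' k, ‖u (k - j)‖ ^ 2 = ∑' k, ‖u k‖ ^ 2 := o9b_shift (fun k => ‖u k‖ ^ 2) j
  have e2 : ∑' k, ‖u (k + 1 - j) + u (k - 1 - j) + ((w k : ℝ) : ℂ) * u (k - j) -
      (E : ℂ) * u (k - j)‖ ^ 2 = ∑' k, ‖hop l u k - (E : ℂ) * u k‖ ^ 2 := by
    rw [← o9b_shift (fun k => ‖hop l u k - (E : ℂ) * u k‖ ^ 2) j]
    refine tsum_congr fun k => ?_
    have h1 : u (k + 1 - j) = u (k - j + 1) := by congr 1; ring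
    have h2 : u (k - 1 - j) = u (k - j - 1) := by congr 1; ring
    have h3 : ((w k : ℝ) : ℂ) * u (k - j) = ((l * vv (k - j) : ℝ) : ℂ) * u (k - j) := by
      by_cases h0 : u (k - j) = 0
      · rw [h0, mul_zero, mul_zero]
      · have h4 := hN _ h0
        have h5 := abs_le.1 h4
        have h6 : vv k = vv (k - j) := by
          have := hjv (k - j) (by push_cast; omega)
          rwa [show k - j + j = k by ring] at this
        rw [hweq k (by push_cast at hj; omega) (by omega), h6]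
    rw [h1, h2, h3]
    rfl
  rw [e1, e2] at hmain
  have hpos : 0 < ∑' k, ‖u k‖ ^ 2 := by
    obtain ⟨k0, hk0⟩ : ∃ k, u k ≠ 0 := by
      by_contra hcon
      push Not at hcon
      exact hu0 (funext hcon)
    have hsum : Summable fun k => ‖u k‖ ^ 2 := by
      refine summable_of_hasFiniteSupport (hfin.subset ?_)
      intro k hk
      rw [Function.mem_support] at hk ⊢
      intro h
      rw [h] at hk
      simp at hk
    refine hsum.tsum_pos (fun k => by positivity) k0 ?_
    have := norm_pos_iff.2 hk0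
    positivity
  have hd2 : 0 < d ^ 2 := by positivity
  nlinarith

end Pool.Agent.Helper36.CV
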